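import Pool.Agent.Helper23.EC.DGoalsA

/-!
# MP_ecc237_nt, Part D, packet A1: basic facts on the series `A` and `B`
-/

set_option autoImplicit false

open MeasureTheory Filter Topology Set

noncomputable section

namespace Pool.Agent.Helper6.EC.D_A1

open EC237

theorem KA_ne (w : ℂ) (hw : 0 < w.re) (k : ℤ × ℤ) (hk : k ≠ 0) : KA w k ≠ 0 := by
  intro h
  have him : (KA w k).im = (k.2:ℝ) * w.re := by
    unfold KA
    simp [Complex.add_im, Complex.mul_im, Complex.mul_re]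
  rw [h] at him
  simp only [Complex.zero_im] at him
  have h2 : (k.2:ℝ) = 0 := by
    rcases mul_eq_zero.mp him.symm with h2 | h2
    · exact h2
    · exact absurd h2 hw.ne'
  have h3 : k.2 = 0 := by exact_mod_cast h2
  unfold KA at h
  rw [h3] at h
  simp only [Int.cast_zero, mul_zero, zero_mul, add_zero] at h
  have h4 : k.1 = 0 := by exact_mod_cast h
  exact hk (Prod.ext h4 h3)

theorem KB_ne (w : ℂ) (hw : 0 < w.re) (k : ℤ × ℤ) (hk : k ≠ 0) : KB w k ≠ 0 := by
  have h := KA_ne w hw (k.1, -k.2) (by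
    intro h
    apply hk
    have h1 := congrArg Prod.fst h
    have h2 := congrArg Prod.snd h
    simp only [Prod.fst_zero, Prod.snd_zero, neg_eq_zero] at h1 h2
    exact Prod.ext h1 h2)
  intro h2
  apply h
  unfold KA
  unfold KB at h2
  push_cast
  rw [← h2]
  ring

theorem gser_mul (K a α : ℂ) (h : K * a = 1) :
    (PowerSeries.C K - PowerSeries.C α * PowerSeries.X) * gser a α = 1 := by
  ext n
  rw [sub_mul, map_sub, PowerSeries.coeff_C_mul, mul_assoc, PowerSeries.coeff_C_mul]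
  rcases n with _ | n
  · rw [PowerSeries.coeff_zero_X_mul]
    simp [gser, PowerSeries.coeff_mk, h]
  · rw [PowerSeries.coeff_succ_X_mul]
    simp only [gser, PowerSeries.coeff_mk, PowerSeries.coeff_one]
    rw [if_neg (Nat.succ_ne_zero n)]
    have : K * (α ^ (n + 1) * a ^ (n + 1 + 1)) = α * (α ^ n * a ^ (n + 1)) * (K * a) := by ring
    rw [this, h]
    ring

theorem KAs_mul (w : ℂ) (hw : 0 < w.re) (v : SV) (hv : v.1 ≠ 0) : KAs w v * As w v = 1 := by
  unfold KAs As
  exact gser_mul _ _ _ (mul_inv_cancel₀ (KA_ne w hw v.1 hv))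

theorem KBs_mul (w : ℂ) (hw : 0 < w.re) (v : SV) (hv : v.1 ≠ 0) : KBs w v * Bs w v = 1 := by
  unfold KBs Bs
  exact gser_mul _ _ _ (mul_inv_cancel₀ (KB_ne w hw v.1 hv))

theorem gser_neg (a α : ℂ) : gser (-a) (-α) = -gser a α := by
  ext n
  simp only [gser, PowerSeries.coeff_mk, map_neg]
  rw [neg_pow, neg_pow a]
  have : (-1 : ℂ) ^ n * (-1) ^ (n + 1) = -1 := by
    rw [← pow_add]
    have : n + (n + 1) = 2 * n + 1 := by ring
    rw [this, pow_succ, pow_mul]
    simp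
  calc (-1 : ℂ) ^ n * α ^ n * ((-1) ^ (n + 1) * a ^ (n + 1))
      = ((-1 : ℂ) ^ n * (-1) ^ (n + 1)) * (α ^ n * a ^ (n + 1)) := by ring
    _ = _ := by rw [this]; ring

theorem KA_neg (w : ℂ) (k : ℤ × ℤ) : KA w (-k) = -KA w k := by
  unfold KA
  simp only [Prod.fst_neg, Prod.snd_neg, Int.cast_neg]
  ring

theorem KB_neg (w : ℂ) (k : ℤ × ℤ) : KB w (-k) = -KB w k := by
  unfold KB
  simp only [Prod.fst_neg, Prod.snd_neg, Int.cast_neg]
  ring

theorem As_neg (w : ℂ) (v : SV) : As w (-v) = -As w v := by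
  unfold As
  rw [← gser_neg]
  simp only [Prod.fst_neg, Prod.snd_neg, Int.cast_neg, KA_neg, inv_neg]

theorem Bs_neg (w : ℂ) (v : SV) : Bs w (-v) = -Bs w v := by
  unfold Bs
  rw [← gser_neg]
  simp only [Prod.fst_neg, Prod.snd_neg, Int.cast_neg, KB_neg, inv_neg]

theorem gser_sq (a α : ℂ) (n : ℕ) :
    PowerSeries.coeff n (gser a α ^ 2) = ((n:ℂ) + 1) * α ^ n * a ^ (n + 2) := by
  rw [pow_two, PowerSeries.coeff_mul]
  have h : ∀ p ∈ Finset.HasAntidiagonal.antidiagonal n,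
      PowerSeries.coeff p.1 (gser a α) * PowerSeries.coeff p.2 (gser a α)
        = α ^ n * a ^ (n + 2) := by
    intro p hp
    rw [Finset.HasAntidiagonal.mem_antidiagonal] at hp
    simp only [gser, PowerSeries.coeff_mk]
    rw [← hp]
    ring
  rw [Finset.sum_congr rfl h, Finset.sum_const, Finset.Nat.card_antidiagonal]
  simp only [nsmul_eq_mul]
  push_cast
  ring

theorem gser_deriv (K : ℂ → ℂ) (K' α w : ℂ) (hK : HasDerivAt K K' w) (h0 : K w ≠ 0) (n : ℕ) :
    HasDerivAt (fun u => PowerSeries.coeff n (gser (K u)⁻¹ α))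
      (-K' * PowerSeries.coeff n (gser (K w)⁻¹ α ^ 2)) w := by
  rw [gser_sq]
  simp only [gser, PowerSeries.coeff_mk]
  have h1 := ((hK.fun_inv h0).fun_pow (n + 1)).const_mul (α ^ n)
  refine h1.congr_deriv ?_
  have h2 : n + 1 - 1 = n := rfl
  rw [h2]
  push_cast
  rw [inv_pow, inv_pow]
  field_simp
  ring

theorem HD_As (w : ℂ) (hw : 0 < w.re) (v : SV) (hv : v.1 ≠ 0) :
    HD (fun u => As u v) (w⁻¹ • ((1 / 2 : ℂ) • (As w v ^ 2 * KBs w v - As w v))) w := by
  intro n
  have hw0 : w ≠ 0 := by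
    intro h
    rw [h] at hw
    simp at hw
  have h1 : KBs w v = KAs w v - PowerSeries.C (2 * Complex.I * (v.1.2:ℂ) * w) := by
    unfold KBs KAs
    have : KB w v.1 = KA w v.1 - 2 * Complex.I * (v.1.2:ℂ) * w := by unfold KA KB; ring
    rw [this, map_sub]
    ring
  have h2 : As w v ^ 2 * KBs w v - As w v =
      PowerSeries.C (-(2 * Complex.I * (v.1.2:ℂ) * w)) * As w v ^ 2 := by
    have h3 := KAs_mul w hw v hv
    rw [h1, map_neg]
    linear_combination (As w v) * h3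
  rw [h2]
  have h4 : HasDerivAt (fun u => KA u v.1) (Complex.I * (v.1.2:ℂ)) w := by
    unfold KA
    have := ((hasDerivAt_id w).const_mul (Complex.I * (v.1.2:ℂ))).const_add (v.1.1:ℂ)
    simpa using this
  have h5 := gser_deriv (fun u => KA u v.1) _ (v.2:ℂ) w h4 (KA_ne w hw v.1 hv) n
  refine h5.congr_deriv ?_
  rw [PowerSeries.coeff_smul, PowerSeries.coeff_smul, PowerSeries.coeff_C_mul]
  unfold As
  simp only [smul_eq_mul]
  field_simp

theorem HD_Bs (w : ℂ) (hw : 0 < w.re) (v : SV) (hv : v.1 ≠ 0) :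
    HD (fun u => Bs u v) (w⁻¹ • ((1 / 2 : ℂ) • (Bs w v ^ 2 * KAs w v - Bs w v))) w := by
  intro n
  have hw0 : w ≠ 0 := by
    intro h
    rw [h] at hw
    simp at hw
  have h1 : KAs w v = KBs w v + PowerSeries.C (2 * Complex.I * (v.1.2:ℂ) * w) := by
    unfold KBs KAs
    have : KA w v.1 = KB w v.1 + 2 * Complex.I * (v.1.2:ℂ) * w := by unfold KA KB; ring
    rw [this, map_add]
    ring
  have h2 : Bs w v ^ 2 * KAs w v - Bs w v =
      PowerSeries.C (2 * Complex.I * (v.1.2:ℂ) * w) * Bs w v ^ 2 := by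
    have h3 := KBs_mul w hw v hv
    rw [h1]
    linear_combination (Bs w v) * h3
  rw [h2]
  have h4 : HasDerivAt (fun u => KB u v.1) (-(Complex.I * (v.1.2:ℂ))) w := by
    unfold KB
    have := ((hasDerivAt_id w).const_mul (Complex.I * (v.1.2:ℂ))).const_sub (v.1.1:ℂ)
    simpa using this
  have h5 := gser_deriv (fun u => KB u v.1) _ (v.2:ℂ) w h4 (KB_ne w hw v.1 hv) n
  refine h5.congr_deriv ?_
  rw [PowerSeries.coeff_smul, PowerSeries.coeff_smul, PowerSeries.coeff_C_mul]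
  unfold Bs
  simp only [smul_eq_mul]
  field_simp

theorem HD_mul (w : ℂ) (F G : ℂ → PowerSeries ℂ) (F' G' : PowerSeries ℂ) (hF : HD F F' w)
    (hG : HD G G' w) : HD (fun u => F u * G u) (F' * G w + F w * G') w := by
  intro n
  simp only [PowerSeries.coeff_mul, map_add]
  rw [← Finset.sum_add_distrib]
  have h : HasDerivAt (fun u => ∑ p ∈ Finset.HasAntidiagonal.antidiagonal n,
      PowerSeries.coeff p.1 (F u) * PowerSeries.coeff p.2 (G u))
      (∑ p ∈ Finset.HasAntidiagonal.antidiagonal n, (PowerSeries.coeff p.1 F' * PowerSeries.coeff p.2 (G w) +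
        PowerSeries.coeff p.1 (F w) * PowerSeries.coeff p.2 G')) w := by
    apply HasDerivAt.fun_sum
    intro p _
    exact (hF p.1).mul (hG p.2)
  exact h

/-- Packet A1. -/
theorem thm : EC237.A1 := by
  intro w hw
  exact ⟨fun k hk => ⟨KA_ne w hw k hk, KB_ne w hw k hk⟩,
    fun v hv => ⟨KAs_mul w hw v hv, KBs_mul w hw v hv⟩,
    fun v => ⟨As_neg w v, Bs_neg w v⟩,
    fun v hv => ⟨HD_As w hw v hv, HD_Bs w hw v hv⟩,
    fun F G F' G' hF hG => HD_mul w F G F' G' hF hG⟩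

end Pool.Agent.Helper6.EC.D_A1
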